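import Mathlib

/-!
Systems: a finite set `K` with labels in `E` such that every good label is the sum of exactly
`N` `r`-subsets, which are pairwise disjoint. Common part of the lifts.
-/

set_option autoImplicit false

namespace Pool.Agent.Lib.MP_f8d60a_co_h11

open Finset

/-- every good label `d ∈ L` is the label of exactly `N` `r`-subsets of `K`, these are pairwise
disjoint, and every `r`-tuple with label `d` is injective -/
structure Sys (r : ℕ) {K E : Type} [AddCommGroup E] (kap : K → E) (L : Set E) (N : ℕ) :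
    Prop where
  card : ∀ d ∈ L, {D : Finset K | D.card = r ∧ ∑ s ∈ D, kap s = d}.ncard = N
  disj : ∀ D D' : Finset K, D.card = r → D'.card = r → ∑ s ∈ D, kap s ∈ L →
    ∑ s ∈ D', kap s = ∑ s ∈ D, kap s → D ≠ D' → Disjoint D D'
  inj : ∀ t : Fin r → K, ∑ j, kap (t j) ∈ L → Function.Injective t

variable {K E V H : Type} [AddCommGroup E] [AddCommGroup H]

theorem Sys.injOn {r : ℕ} {kap : K → E} {L : Set E} {N : ℕ} (hS : Sys r kap L N)
    (f : V → K) (D' : Finset V) (hD' : D'.card = r) (h : ∑ x ∈ D', kap (f x) ∈ L) :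
    Set.InjOn f D' := by
  classical
  let e : D' ≃ Fin r := D'.equivFinOfCardEq hD'
  have h1 : ∑ j, kap (f ((e.symm j) : V)) = ∑ x ∈ D', kap (f x) := by
    rw [Equiv.sum_comp e.symm (fun x : D' => kap (f (x : V)))]
    exact Finset.sum_coe_sort D' (fun x => kap (f x))
  have h2 := hS.inj (fun j => f ((e.symm j) : V)) (by rw [h1]; exact h)
  intro x hx y hy hxy
  have h3 : e ⟨x, hx⟩ = e ⟨y, hy⟩ := by
    apply h2
    simp only [Equiv.symm_apply_apply]
    exact hxy
  exact congrArg Subtype.val (e.injective h3)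

/-- a set on which the first projection is injective is a graph -/
theorem exists_section [DecidableEq K] [DecidableEq V] [Inhabited V] (D' : Finset (K × V))
    (h : Set.InjOn Prod.fst (D' : Set (K × V))) :
    ∃ a : K → V, D' = (D'.image Prod.fst).image (fun s => (s, a s)) := by
  classical
  refine ⟨fun s => if hs : ∃ v, (s, v) ∈ D' then hs.choose else default, ?_⟩
  have key : ∀ s v, (s, v) ∈ D' →
      (if hs : ∃ v, (s, v) ∈ D' then hs.choose else default) = v := by
    intro s v hv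
    have hs : ∃ v, (s, v) ∈ D' := ⟨v, hv⟩
    rw [dif_pos hs]
    have h1 := hs.choose_spec
    exact congrArg Prod.snd (h h1 hv rfl)
  ext ⟨s, v⟩
  simp only [Finset.mem_image, Prod.mk.injEq]
  constructor
  · intro hv
    exact ⟨s, ⟨(s, v), hv, rfl⟩, rfl, key s v hv⟩
  · rintro ⟨s', ⟨⟨s'', v'⟩, hv', rfl⟩, rfl, rfl⟩
    simp only [key s'' v' hv']
    exact hv'

theorem sum_graph [DecidableEq K] [DecidableEq V] {G : Type} [AddCommMonoid G] (D : Finset K)
    (a : K → V) (f : K × V → G) :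
    ∑ x ∈ D.image (fun s => (s, a s)), f x = ∑ s ∈ D, f (s, a s) := by
  rw [Finset.sum_image]
  intro x _ y _ hxy
  exact congrArg Prod.fst hxy

theorem card_graph [DecidableEq K] [DecidableEq V] (D : Finset K) (a : K → V) :
    (D.image (fun s => (s, a s))).card = D.card := by
  rw [Finset.card_image_of_injective]
  intro x y hxy
  exact congrArg Prod.fst hxy

theorem image_fst_graph [DecidableEq K] [DecidableEq V] (D : Finset K) (a : K → V) :
    (D.image (fun s => (s, a s))).image Prod.fst = D := by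
  rw [Finset.image_image]
  exact Finset.image_id

/-- structure of the `r`-subsets of `K × V` over a good label -/
theorem Sys.project [DecidableEq K] [DecidableEq V] [Inhabited V] {r : ℕ} {kap : K → E}
    {L : Set E} {N : ℕ} (hS : Sys r kap L N) (g : K × V → H) (D' : Finset (K × V))
    (hD' : D'.card = r) (d : E) (A : H) (hd : d ∈ L)
    (hsum : ∑ x ∈ D', ((kap x.1, g x) : E × H) = (d, A)) :
    (D'.image Prod.fst).card = r ∧ ∑ s ∈ D'.image Prod.fst, kap s = d ∧
      ∃ a : K → V, D' = (D'.image Prod.fst).image (fun s => (s, a s)) ∧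
        ∑ s ∈ D'.image Prod.fst, g (s, a s) = A := by
  have h1 : ∑ x ∈ D', kap x.1 = d := by
    have := congrArg Prod.fst hsum
    rwa [Prod.fst_sum] at this
  have h2 : ∑ x ∈ D', g x = A := by
    have := congrArg Prod.snd hsum
    rwa [Prod.snd_sum] at this
  have hinj : Set.InjOn Prod.fst (D' : Set (K × V)) :=
    hS.injOn Prod.fst D' hD' (by rw [h1]; exact hd)
  have hcard : (D'.image Prod.fst).card = r := by
    rw [Finset.card_image_of_injOn hinj, hD']
  refine ⟨hcard, ?_, ?_⟩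
  · rw [Finset.sum_image hinj, h1]
  · obtain ⟨a, ha⟩ := exists_section D' hinj
    refine ⟨a, ha, ?_⟩
    rw [← h2]
    conv_rhs => rw [ha]
    rw [sum_graph]

theorem Sys.lift_uniq [DecidableEq K] [DecidableEq V] [Inhabited V] {r : ℕ} {kap : K → E}
    {L : Set E} {N : ℕ} (hS : Sys r kap L N) (g : K × V → H) (L' : Set (E × H))
    (hL : ∀ x ∈ L', x.1 ∈ L)
    (hu : ∀ x ∈ L', ∀ D : Finset K, D.card = r → ∑ s ∈ D, kap s = x.1 → ∀ a a' : K → V,
      ∑ s ∈ D, g (s, a s) = x.2 → ∑ s ∈ D, g (s, a' s) = x.2 → ∀ s ∈ D, a s = a' s) :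
    ∀ x ∈ L', ∀ D' D'' : Finset (K × V), D'.card = r → D''.card = r →
      ∑ y ∈ D', ((kap y.1, g y) : E × H) = x → ∑ y ∈ D'', ((kap y.1, g y) : E × H) = x →
      D'.image Prod.fst = D''.image Prod.fst → D' = D'' := by
  intro x hx D' D'' h1 h2 h3 h4 h5
  obtain ⟨c1, s1, a1, e1, t1⟩ := hS.project g D' h1 x.1 x.2 (hL x hx) h3
  obtain ⟨c2, s2, a2, e2, t2⟩ := hS.project g D'' h2 x.1 x.2 (hL x hx) h4
  rw [e1, e2, ← h5]
  rw [← h5] at t2
  apply Finset.image_congr
  intro s hs
  simp only [Prod.mk.injEq, true_and]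
  exact hu x hx _ c1 s1 a1 a2 t1 t2 s hs

theorem Sys.lift [DecidableEq K] [DecidableEq V] [Inhabited V] {r : ℕ} {kap : K → E}
    {L : Set E} {N : ℕ} (hS : Sys r kap L N) (g : K × V → H) (L' : Set (E × H)) (N' : ℕ)
    (hL : ∀ x ∈ L', x.1 ∈ L)
    (hu : ∀ x ∈ L', ∀ D : Finset K, D.card = r → ∑ s ∈ D, kap s = x.1 → ∀ a a' : K → V,
      ∑ s ∈ D, g (s, a s) = x.2 → ∑ s ∈ D, g (s, a' s) = x.2 → ∀ s ∈ D, a s = a' s)
    (hc : ∀ x ∈ L', {D : Finset K | D.card = r ∧ ∑ s ∈ D, kap s = x.1 ∧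
      ∃ a : K → V, ∑ s ∈ D, g (s, a s) = x.2}.ncard = N') :
    Sys r (fun x : K × V => ((kap x.1, g x) : E × H)) L' N' := by
  have huniq := hS.lift_uniq g L' hL hu
  constructor
  · intro x hx
    rw [← hc x hx]
    have himg : {D : Finset K | D.card = r ∧ ∑ s ∈ D, kap s = x.1 ∧
        ∃ a : K → V, ∑ s ∈ D, g (s, a s) = x.2}
        = (fun D' : Finset (K × V) => D'.image Prod.fst) ''
          {D' : Finset (K × V) | D'.card = r ∧ ∑ y ∈ D', ((kap y.1, g y) : E × H) = x} := by
      ext D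
      simp only [Set.mem_ofPred_eq, Set.mem_image]
      constructor
      · rintro ⟨h1, h2, a, h3⟩
        refine ⟨D.image (fun s => (s, a s)), ⟨by rw [card_graph, h1], ?_⟩, image_fst_graph D a⟩
        rw [sum_graph]
        apply Prod.ext
        · rw [Prod.fst_sum]; exact h2
        · rw [Prod.snd_sum]; exact h3
      · rintro ⟨D', ⟨h1, h2⟩, rfl⟩
        obtain ⟨c1, s1, a1, e1, t1⟩ := hS.project g D' h1 x.1 x.2 (hL x hx) h2
        exact ⟨c1, s1, a1, t1⟩
    rw [himg, Set.InjOn.ncard_image]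
    rintro D' ⟨h1, h2⟩ D'' ⟨h3, h4⟩ h5
    exact huniq x hx D' D'' h1 h3 h2 h4 h5
  · intro D' D'' h1 h2 h3 h4 hne
    obtain ⟨c1, s1, a1, e1, t1⟩ := hS.project g D' h1 _ _ (hL _ h3) (Prod.mk.eta).symm
    obtain ⟨c2, s2, a2, e2, t2⟩ := hS.project g D'' h2 _ _ (hL _ h3)
      (h4.trans (Prod.mk.eta).symm)
    have hne2 : D'.image Prod.fst ≠ D''.image Prod.fst := fun h =>
      hne (huniq _ h3 D' D'' h1 h2 rfl h4 h)
    have hdis := hS.disj _ _ c1 c2 (by rw [s1]; exact hL _ h3) (by rw [s1, s2]) hne2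
    rw [Finset.disjoint_left] at hdis ⊢
    intro x hx hx'
    exact hdis (Finset.mem_image_of_mem _ hx) (Finset.mem_image_of_mem _ hx')
  · intro t ht
    have h1 : Function.Injective fun j => (t j).1 := by
      apply hS.inj
      have := hL _ ht
      rwa [Prod.fst_sum] at this
    intro i j hij
    exact h1 (congrArg Prod.fst hij)

end Pool.Agent.Lib.MP_f8d60a_co_h11
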