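import Mathlib

/-!
Colours: a finite field `F` of characteristic two with more than `q0` elements, an injection of a
set `A` with `2 ^ i` elements (a subfield), and a set `Z` (representatives modulo the units of the
subfield).
-/

set_option autoImplicit false

namespace Pool.Agent.Lib.MP_f8d60a_co_h11

theorem exists_colours (i q0 : ℕ) (hi : 1 ≤ i) :
    ∃ (F : Type) (_ : Field F) (_ : Fintype F) (_ : CharP F 2) (A : Type) (_ : Fintype A)
      (e : A → F) (Z : Set F), Fintype.card A = 2 ^ i ∧ q0 < Fintype.card F ∧
      Function.Injective e ∧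
      ∀ z : F, z ≠ 0 → ∀ a : A, ∃! b, b ≠ a ∧ (e a + e b) * z ∈ Z := by
  classical
  have hi0 : i ≠ 0 := by omega
  let k := GaloisField 2 i
  let F := FiniteField.Extension k 2 (q0 + 1)
  have : Finite F := inferInstance
  let _ : Fintype F := Fintype.ofFinite F
  let _ : Fintype k := Fintype.ofFinite k
  have hchar : CharP F 2 := charP_of_injective_algebraMap (algebraMap k F).injective 2
  have hk : Nat.card k = 2 ^ i := GaloisField.card 2 i hi0
  have hF : Nat.card F = Nat.card k ^ (q0 + 1) := FiniteField.natCard_extension k 2 (q0 + 1)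
  let S : Setoid F := MulAction.orbitRel kˣ F
  let rep : F → F := fun z => Quotient.out (Quotient.mk S z)
  have hrep1 : ∀ z : F, ∃ c : kˣ, c • z = rep z := by
    intro z
    have h1 : S (rep z) z := Quotient.exact (Quotient.out_eq (Quotient.mk S z))
    exact h1
  have hrep2 : ∀ (z : F) (c : kˣ), rep (c • z) = rep z := by
    intro z c
    have h1 : Quotient.mk S (c • z) = Quotient.mk S z := Quotient.sound ⟨c, rfl⟩
    simp only [rep, h1]
  refine ⟨F, inferInstance, inferInstance, hchar, k, inferInstance, algebraMap k F,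
    {z | rep z = z}, ?_, ?_, (algebraMap k F).injective, ?_⟩
  · rw [← Nat.card_eq_fintype_card, hk]
  · rw [← Nat.card_eq_fintype_card, hF, hk]
    have h1 : 2 ≤ 2 ^ i := by
      calc 2 = 2 ^ 1 := rfl
        _ ≤ 2 ^ i := Nat.pow_le_pow_right (by norm_num) hi
    calc q0 < q0 + 1 := by omega
      _ < 2 ^ (q0 + 1) := Nat.lt_two_pow_self
      _ ≤ (2 ^ i) ^ (q0 + 1) := Nat.pow_le_pow_left h1 _
  · intro z hz a
    obtain ⟨c, hc⟩ := hrep1 z
    have hk2 : ∀ x : k, x + x = 0 := fun x => CharTwo.add_self_eq_zero x
    have hsmul : ∀ (c : kˣ), c • z = algebraMap k F (c : k) * z := by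
      intro c
      rw [Units.smul_def, Algebra.smul_def]
    refine ⟨c - a, ⟨?_, ?_⟩, ?_⟩
    · intro h
      have h1 : (c : k) = a + a := by rw [sub_eq_iff_eq_add] at h; exact h
      rw [hk2] at h1
      exact c.ne_zero h1
    · change rep _ = _
      rw [← map_add, add_sub_cancel, ← hsmul, hrep2, hc]
    · rintro b ⟨hb, hbZ⟩
      have h1 : a + b ≠ 0 := by
        intro h
        apply hb
        have h2 := hk2 a
        exact add_left_cancel (h.trans h2.symm)
      let c' : kˣ := Units.mk0 (a + b) h1
      have h3 : rep (c' • z) = c' • z := by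
        rw [hsmul]
        change rep _ = _ at hbZ
        rw [← map_add] at hbZ
        exact hbZ
      rw [hrep2, ← hc, hsmul, hsmul] at h3
      have h4 : (c : k) = c' := (algebraMap k F).injective (mul_right_cancel₀ hz h3)
      rw [h4]
      simp [c']

end Pool.Agent.Lib.MP_f8d60a_co_h11
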