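import Mathlib

/-!
Common complement lemma: finitely many subspaces of dimension at most `M` of a
finite-dimensional space over a field with more elements than there are subspaces are all
mapped injectively by one linear map to `F ^ M`.
-/

set_option autoImplicit false

namespace Pool.Agent.Lib.MP_f8d60a_co_h11

open Module

variable {F W ι : Type*} [Field F] [AddCommGroup W] [Module F W] [FiniteDimensional F W]

/-- a subspace disjoint from all `U i` of codimension at most `M` -/
theorem exists_common_disjoint (s : Finset ι) (U : ι → Submodule F W) (M : ℕ)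
    (hU : ∀ i ∈ s, finrank F (U i) ≤ M) (hF : (s.card : ℕ∞) < ENat.card F) :
    ∃ X : Submodule F W, (∀ i ∈ s, Disjoint X (U i)) ∧ finrank F (W ⧸ X) ≤ M := by
  classical
  let S : Set (Submodule F W) := {X | ∀ i ∈ s, Disjoint X (U i)}
  have hS : S.Nonempty := ⟨⊥, fun i _ => disjoint_bot_left⟩
  obtain ⟨X, hX, hmax⟩ := wellFounded_gt.has_min S hS
  refine ⟨X, hX, ?_⟩
  by_contra hlt
  rw [not_le] at hlt
  have h1 : ∀ i ∈ s, X ⊔ U i ≠ ⊤ := by
    intro i hi htop
    have h2 := Submodule.finrank_sup_add_finrank_inf_eq X (U i)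
    rw [htop, (hX i hi).eq_bot, finrank_bot, finrank_top, add_zero] at h2
    have h3 := Submodule.finrank_quotient_add_finrank X
    have h4 := hU i hi
    omega
  have hne : ∃ w : W, ∀ i ∈ s, w ∉ X ⊔ U i := by
    rcases s.eq_empty_or_nonempty with rfl | hs
    · exact ⟨0, by simp⟩
    obtain ⟨i0, hi0⟩ := hs
    let p : ι → Submodule F W := fun i => if i ∈ s then X ⊔ U i else X ⊔ U i0
    have hp : ∀ i, p i ≠ ⊤ := by
      intro i
      simp only [p]
      split_ifs with h
      · exact h1 i h
      · exact h1 i0 hi0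
    have h2 := Submodule.iUnion_ssubset_of_forall_ne_top_of_card_lt s p hp hF
    obtain ⟨w, -, hw⟩ := Set.exists_of_ssubset h2
    refine ⟨w, fun i hi hwi => hw ?_⟩
    simp only [Set.mem_iUnion]
    exact ⟨i, hi, by simp only [p, if_pos hi]; exact hwi⟩
  rcases s.eq_empty_or_nonempty with rfl | ⟨i0, hi0⟩
  · have h5 : X = ⊤ := by
      by_contra hXt
      exact hmax ⊤ (by simp [S]) (lt_top_iff_ne_top.2 hXt)
    have h6 := Submodule.finrank_quotient_add_finrank X
    rw [h5, finrank_top] at h6
    rw [h5] at hlt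
    omega
  obtain ⟨w, hw⟩ := hne
  have hwX : w ∉ X := fun h => hw i0 hi0 (Submodule.mem_sup_left h)
  refine hmax (X ⊔ Submodule.span F {w}) ?_ ?_
  · intro i hi
    rw [Submodule.disjoint_def]
    intro u hu hui
    obtain ⟨x, hx, y, hy, rfl⟩ := Submodule.mem_sup.1 hu
    obtain ⟨c, rfl⟩ := Submodule.mem_span_singleton.1 hy
    have hc : c = 0 := by
      by_contra hc
      apply hw i hi
      have h7 : c • w ∈ X ⊔ U i := by
        have h8 : c • w = -x + (x + c • w) := by abel
        rw [h8]
        exact add_mem (Submodule.mem_sup_left (neg_mem hx)) (Submodule.mem_sup_right hui)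
      exact ((X ⊔ U i).smul_mem_iff hc).1 h7
    subst hc
    rw [zero_smul, add_zero] at hui ⊢
    exact Submodule.disjoint_def.1 (hX i hi) x hx hui
  · refine lt_of_le_of_ne le_sup_left ?_
    intro h
    apply hwX
    rw [h]
    exact Submodule.mem_sup_right (Submodule.mem_span_singleton_self w)

/-- one linear map to `F ^ M` which is injective on all `U i` -/
theorem exists_generic (s : Finset ι) (U : ι → Submodule F W) (M : ℕ)
    (hU : ∀ i ∈ s, finrank F (U i) ≤ M) (hF : (s.card : ℕ∞) < ENat.card F) :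
    ∃ G : W →ₗ[F] (Fin M → F), ∀ i ∈ s, ∀ w ∈ U i, G w = 0 → w = 0 := by
  obtain ⟨X, hX, hfr⟩ := exists_common_disjoint s U M hU hF
  have h1 : finrank F (W ⧸ X) ≤ finrank F (Fin M → F) := by
    rw [finrank_fin_fun]; exact hfr
  obtain ⟨e, he⟩ : ∃ e : (W ⧸ X) →ₗ[F] (Fin M → F), Function.Injective e :=
    finrank_le_iff_exists_linearMap.1 h1
  refine ⟨e ∘ₗ X.mkQ, fun i hi w hw h => ?_⟩
  have h3 : X.mkQ w = 0 := he (by simpa using h)
  rw [Submodule.mkQ_apply, Submodule.Quotient.mk_eq_zero] at h3
  exact Submodule.disjoint_def.1 (hX i hi) w h3 hw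

end Pool.Agent.Lib.MP_f8d60a_co_h11
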