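import Mathlib
import Pool.Agent.Lib.MP_f8d60a_co_h11.CC

/-!
Generic lift maps. `K` finite, `B` special coordinates, `V = F ^ (Option B)`, special linear maps
`sp s : V → F ^ B` given, a finite family `DD` of `r`-subsets of `K` such that for each of them
the special map `V ^ D → F ^ B` is onto. If `F` has more elements than `DD`, there are linear maps
`G s : V → F ^ M`, `M = r + (r - 1) |B|`, such that `V ^ D → F ^ B × F ^ M` is bijective for all
`D ∈ DD`.
-/

set_option autoImplicit false

namespace Pool.Agent.Lib.MP_f8d60a_co_h11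

open Module Finset

variable {F K B : Type*} [Field F] [Fintype K] [DecidableEq K] [Fintype B]

theorem exists_lift_maps (r : ℕ) (hr : 1 ≤ r) (sp : K → (Option B → F) →ₗ[F] (B → F))
    (DD : Finset (Finset K)) (hcard : ∀ D ∈ DD, D.card = r)
    (hsurj : ∀ D ∈ DD, ∀ y : B → F, ∃ a : K → Option B → F, ∑ s ∈ D, sp s (a s) = y)
    (hF : (DD.card : ℕ∞) < ENat.card F) :
    ∃ G : K → (Option B → F) →ₗ[F] (Fin (r + (r - 1) * Fintype.card B) → F), ∀ D ∈ DD,
      (∀ A : (B → F) × (Fin (r + (r - 1) * Fintype.card B) → F), ∃ a : K → Option B → F,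
        ∑ s ∈ D, ((sp s (a s), G s (a s)) :
          (B → F) × (Fin (r + (r - 1) * Fintype.card B) → F)) = A) ∧
      (∀ a a' : K → Option B → F,
        ∑ s ∈ D, ((sp s (a s), G s (a s)) :
          (B → F) × (Fin (r + (r - 1) * Fintype.card B) → F))
          = ∑ s ∈ D, (sp s (a' s), G s (a' s)) → ∀ s ∈ D, a s = a' s) := by
  classical
  set M := r + (r - 1) * Fintype.card B with hM
  -- the special map on `D → V`
  let T : (D : Finset K) → (D → Option B → F) →ₗ[F] (B → F) := fun D =>
    ∑ s : D, (sp s.1) ∘ₗ LinearMap.proj s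
  let ext : (D : Finset K) → (D → Option B → F) →ₗ[F] (K → Option B → F) := fun D =>
    LinearMap.pi fun s => if h : s ∈ D then LinearMap.proj ⟨s, h⟩ else 0
  have hext : ∀ (D : Finset K) (a : D → Option B → F) (s : D), ext D a s.1 = a s := by
    intro D a s
    simp only [ext, LinearMap.pi_apply]
    rw [dif_pos s.2]
    rfl
  have hext0 : ∀ (D : Finset K) (a : D → Option B → F) (s : K), s ∉ D → ext D a s = 0 := by
    intro D a s hs
    simp only [ext, LinearMap.pi_apply]
    rw [dif_neg hs]
    rfl
  have hextinj : ∀ D, Function.Injective (ext D) := by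
    intro D a a' h
    funext s
    rw [← hext D a s, ← hext D a' s, h]
  have hTsurj : ∀ D ∈ DD, Function.Surjective (T D) := by
    intro D hD y
    obtain ⟨a, ha⟩ := hsurj D hD y
    refine ⟨fun s => a s.1, ?_⟩
    rw [← ha]
    simp only [T, LinearMap.sum_apply, LinearMap.comp_apply, LinearMap.proj_apply]
    exact Finset.sum_coe_sort D (fun s => sp s (a s))
  let U : Finset K → Submodule F (K → Option B → F) := fun D => (LinearMap.ker (T D)).map (ext D)
  have hdimV : ∀ D ∈ DD, finrank F (D → Option B → F) = Fintype.card B + M := by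
    intro D hD
    rw [Module.finrank_pi_fintype]
    simp only [Module.finrank_fintype_fun_eq_card, Fintype.card_option, Finset.sum_const,
      Finset.card_univ, Fintype.card_coe, smul_eq_mul]
    rw [hcard D hD, hM]
    obtain ⟨k, rfl⟩ : ∃ k, r = k + 1 := ⟨r - 1, by omega⟩
    simp only [Nat.add_sub_cancel]
    ring
  have hU : ∀ D ∈ DD, finrank F (U D) ≤ M := by
    intro D hD
    have h1 := LinearMap.finrank_range_add_finrank_ker (T D)
    rw [LinearMap.range_eq_top.2 (hTsurj D hD), finrank_top, hdimV D hD,
      Module.finrank_fintype_fun_eq_card] at h1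
    have h2 : finrank F (U D) = finrank F (LinearMap.ker (T D)) :=
      LinearEquiv.finrank_eq (Submodule.equivMapOfInjective (ext D) (hextinj D) _).symm
    omega
  obtain ⟨G, hG⟩ := exists_generic DD U M hU hF
  refine ⟨fun s => G ∘ₗ LinearMap.single F (fun _ : K => Option B → F) s, fun D hD => ?_⟩
  let Φ : (D → Option B → F) →ₗ[F] (B → F) × (Fin M → F) := (T D).prod (G ∘ₗ ext D)
  have hΦ : ∀ a : K → Option B → F, Φ (fun s => a s.1)
      = ∑ s ∈ D, ((sp s (a s), G (Pi.single s (a s))) : (B → F) × (Fin M → F)) := by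
    intro a
    have h3 : ext D (fun s => a s.1) = ∑ s ∈ D, Pi.single s (a s) := by
      funext k
      rw [Finset.sum_apply]
      by_cases hk : k ∈ D
      · rw [hext D (fun s => a s.1) ⟨k, hk⟩, Finset.sum_eq_single k]
        · simp
        · intro b _ hb
          exact Pi.single_eq_of_ne (Ne.symm hb) _
        · intro h; exact absurd hk h
      · rw [hext0 D _ k hk, Finset.sum_eq_zero]
        intro b hb
        refine Pi.single_eq_of_ne ?_ _
        rintro rfl
        exact hk hb
    apply Prod.ext
    · rw [Prod.fst_sum]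
      change T D (fun s => a s.1) = _
      simp only [T, LinearMap.sum_apply, LinearMap.comp_apply, LinearMap.proj_apply]
      exact Finset.sum_coe_sort D (fun s => sp s (a s))
    · rw [Prod.snd_sum]
      change G (ext D (fun s => a s.1)) = _
      rw [h3, map_sum]
  have hinj : Function.Injective Φ := by
    rw [← LinearMap.ker_eq_bot, LinearMap.ker_eq_bot']
    intro a ha
    have h1 : T D a = 0 := congrArg Prod.fst ha
    have h2 : G (ext D a) = 0 := congrArg Prod.snd ha
    have h3 := hG D hD (ext D a) (Submodule.mem_map.2 ⟨a, h1, rfl⟩) h2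
    exact hextinj D (by rw [h3, map_zero])
  have hsurjΦ : Function.Surjective Φ := by
    refine (LinearMap.injective_iff_surjective_of_finrank_eq_finrank ?_).1 hinj
    rw [hdimV D hD, Module.finrank_prod, Module.finrank_fintype_fun_eq_card,
      Module.finrank_fin_fun]
  constructor
  · intro A
    obtain ⟨a, ha⟩ := hsurjΦ A
    refine ⟨ext D a, ?_⟩
    rw [← ha]
    have h4 := hΦ (ext D a)
    have h5 : (fun s : D => ext D a s.1) = a := by
      funext s; exact hext D a s
    rw [h5] at h4
    exact h4.symm
  · intro a a' h s hs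
    have h6 : Φ (fun s => a s.1) = Φ (fun s => a' s.1) := by
      rw [hΦ, hΦ]; exact h
    exact congrFun (hinj h6) ⟨s, hs⟩

end Pool.Agent.Lib.MP_f8d60a_co_h11
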