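import Mathlib
import Pool.Agent.Lib.MP_f8d60a_co_h11.Gen
import Pool.Agent.Lib.MP_f8d60a_co_h11.Sys

/-!
Lift II: halving the multiplicity of a system with a family of circuits.
-/

set_option autoImplicit false

namespace Pool.Agent.Lib.MP_f8d60a_co_h11

open Finset Module

/-- the dimension of the generic part -/
abbrev gdim (r b : ℕ) : ℕ := r + (r - 1) * b

variable {K E F : Type}

theorem exists_private [DecidableEq K] [AddCommGroup F] (D : Finset K) (c : K → Prop)
    [DecidablePred c] (n : K → F) (y : F) (s2 : K) (hs2 : s2 ∈ D) (hc : ¬ c s2) :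
    ∃ w : K → F, ∑ s ∈ D, (if c s then n s else w s) = y := by
  refine ⟨Function.update 0 s2 (y - ∑ s ∈ D.erase s2, (if c s then n s else 0)), ?_⟩
  rw [← Finset.add_sum_erase D _ hs2]
  rw [if_neg hc, Function.update_self]
  have h1 : ∀ s ∈ D.erase s2, (if c s then n s else
      (Function.update (0 : K → F) s2
        (y - ∑ s ∈ D.erase s2, (if c s then n s else 0))) s)
      = if c s then n s else 0 := by
    intro s hs
    rw [Function.update_of_ne (Finset.ne_of_mem_erase hs)]
    rfl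
  rw [Finset.sum_congr rfl h1, sub_add_cancel]

theorem exists_tau [Field F] [CharP F 2] : ∃ τ : F →+ ZMod 2, τ 1 = 1 := by
  let _ := ZMod.algebra F 2
  by_contra hcon
  push Not at hcon
  have h1 : ∀ φ : Module.Dual (ZMod 2) F, φ 1 = 0 := by
    intro φ
    have h2 : φ 1 ≠ 1 := hcon φ.toAddMonoidHom
    have h3 : ∀ z : ZMod 2, z ≠ 1 → z = 0 := by decide
    exact h3 _ h2
  exact one_ne_zero ((Module.forall_dual_apply_eq_zero_iff (ZMod 2) (1 : F)).1 h1)

theorem liftII [Fintype K] [DecidableEq K] [AddCommGroup E] [Field F]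
    [Fintype F] [CharP F 2] {r N : ℕ} (hr : 1 ≤ r) {kap : K → E} {L : Set E}
    (hE : ∀ x : E, x + x = 0) (hS : Sys r kap L (2 * N)) (CC : Set (Finset K))
    (hC : ∀ C ∈ CC, C.card = 2 * r ∧ ∑ s ∈ C, kap s = 0)
    (hex : ∀ D : Finset K, D.card = r → ∑ s ∈ D, kap s ∈ L → ∃! C, C ∈ CC ∧ D ⊆ C)
    (hF : 2 ^ (Fintype.card K) < Fintype.card F) :
    ∃ (p : K × (Option (Finset K) → F) → ((Finset K → F) ×
        (Fin (gdim r (Fintype.card (Finset K))) → F)))
      (τ : (Option (Finset K) → F) → ZMod 2),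
      Sys r (fun x => ((kap x.1, (p x, τ x.2)) :
        E × ((Finset K → F) × (Fin (gdim r (Fintype.card (Finset K))) → F)) × ZMod 2))
        {x | x.1 ∈ L} N := by
  classical
  have : Inhabited F := ⟨0⟩
  let DD : Finset (Finset K) := univ.filter (fun D => D.card = r ∧ ∑ s ∈ D, kap s ∈ L)
  let sp : K → (Option (Finset K) → F) →ₗ[F] (Finset K → F) := fun s =>
    LinearMap.pi fun C => if C ∈ CC ∧ s ∈ C then LinearMap.proj none else LinearMap.proj (some C)
  have hsp1 : ∀ s a C, C ∈ CC → s ∈ C → sp s a C = a none := by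
    intro s a C h1 h2
    simp only [sp, LinearMap.pi_apply]
    rw [if_pos ⟨h1, h2⟩]; rfl
  have hsp2 : ∀ s a C, ¬ (C ∈ CC ∧ s ∈ C) → sp s a C = a (some C) := by
    intro s a C h1
    simp only [sp, LinearMap.pi_apply]
    rw [if_neg h1]; rfl
  have hDD : ∀ D ∈ DD, D.card = r ∧ ∑ s ∈ D, kap s ∈ L := by
    intro D hD; exact (Finset.mem_filter.1 hD).2
  have hsurj : ∀ D ∈ DD, ∀ y : Finset K → F, ∃ a : K → Option (Finset K) → F,
      ∑ s ∈ D, sp s (a s) = y := by
    intro D hD y
    obtain ⟨hDr, hDL⟩ := hDD D hD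
    obtain ⟨C0, ⟨hC0, hDC0⟩, hC0u⟩ := hex D hDr hDL
    obtain ⟨s1, hs1⟩ : D.Nonempty := Finset.card_pos.1 (by omega)
    let n : K → F := fun s => if s = s1 then y C0 else 0
    have hw : ∀ C : Finset K, ∃ w : K → F,
        ∑ s ∈ D, (if C ∈ CC ∧ s ∈ C then n s else w s) = y C := by
      intro C
      by_cases hCD : C ∈ CC ∧ D ⊆ C
      · have : C = C0 := hC0u C hCD
        subst this
        refine ⟨0, ?_⟩
        have h1 : ∀ s ∈ D, (if C ∈ CC ∧ s ∈ C then n s else (0 : K → F) s) = n s := by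
          intro s hs; rw [if_pos ⟨hCD.1, hCD.2 hs⟩]
        rw [Finset.sum_congr rfl h1]
        simp only [n]
        rw [Finset.sum_ite_eq' D s1, if_pos hs1]
      · obtain ⟨s2, hs2, hs2C⟩ : ∃ s2 ∈ D, ¬ (C ∈ CC ∧ s2 ∈ C) := by
          by_contra hcon
          push Not at hcon
          apply hCD
          exact ⟨(hcon s1 hs1).1, fun s hs => (hcon s hs).2⟩
        exact exists_private D _ n (y C) s2 hs2 hs2C
    choose w hw using hw
    refine ⟨fun s o => o.elim (n s) (fun C => w C s), ?_⟩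
    funext C
    rw [Finset.sum_apply, ← hw C]
    apply Finset.sum_congr rfl
    intro s hs
    split_ifs with h
    · rw [hsp1 s _ C h.1 h.2]; rfl
    · rw [hsp2 s _ C h]; rfl
  have hDDcard : (DD.card : ℕ∞) < ENat.card F := by
    have h1 : DD.card ≤ 2 ^ (Fintype.card K) := by
      refine (Finset.card_le_univ DD).trans ?_
      rw [Fintype.card_finset]
    rw [ENat.card_eq_coe_fintype_card]
    exact_mod_cast lt_of_le_of_lt h1 hF
  obtain ⟨G, hG⟩ := exists_lift_maps r hr sp DD (fun D hD => (hDD D hD).1) hsurj hDDcard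
  -- the functional
  obtain ⟨τ, hτ⟩ : ∃ τ : F →+ ZMod 2, τ 1 = 1 := exists_tau
  -- distinguished elements
  obtain ⟨δ, hδ⟩ : ∃ δ : Finset K → K → F, ∀ C ∈ CC, ∑ s ∈ C, δ C s = 1 := by
    refine ⟨fun C s => if h : C.Nonempty then (if s = h.choose then 1 else 0) else 0, ?_⟩
    intro C hCC
    have h : C.Nonempty := Finset.card_pos.1 (by have := (hC C hCC).1; omega)
    have h1 : ∀ s ∈ C, (if h : C.Nonempty then (if s = h.choose then (1 : F) else 0) else 0)
        = if s = h.choose then 1 else 0 := by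
      intro s _; rw [dif_pos h]
    rw [Finset.sum_congr rfl h1, Finset.sum_ite_eq' C, if_pos h.choose_spec]
  let H1 := (Finset K → F) × (Fin (gdim r (Fintype.card (Finset K))) → F)
  let P : K → (Option (Finset K) → F) → H1 := fun s v => (sp s v, G s v)
  let ξ : K → H1 := fun s => (fun C => δ C s, 0)
  let g : K × (Option (Finset K) → F) → H1 × ZMod 2 := fun x =>
    (P x.1 x.2 + ξ x.1, τ (x.2 none))
  refine ⟨fun x => P x.1 x.2 + ξ x.1, fun v => τ (v none), ?_⟩
  change Sys r (fun x => ((kap x.1, g x) : E × H1 × ZMod 2)) {x | x.1 ∈ L} N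
  -- sums of g
  have hgsum : ∀ (D : Finset K) (a : K → Option (Finset K) → F),
      ∑ s ∈ D, g (s, a s) = (∑ s ∈ D, P s (a s) + ∑ s ∈ D, ξ s, τ (∑ s ∈ D, a s none)) := by
    intro D a
    apply Prod.ext
    · rw [Prod.fst_sum]
      simp only [g]
      rw [Finset.sum_add_distrib]
    · rw [Prod.snd_sum]
      simp only [g]
      rw [map_sum]
  have hPu : ∀ D : Finset K, D.card = r → ∑ s ∈ D, kap s ∈ L → ∀ a a' : K → _,
      ∑ s ∈ D, P s (a s) = ∑ s ∈ D, P s (a' s) → ∀ s ∈ D, a s = a' s := by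
    intro D h1 h2 a a' h
    exact (hG D (Finset.mem_filter.2 ⟨Finset.mem_univ _, h1, h2⟩)).2 a a' h
  have hPe : ∀ D : Finset K, D.card = r → ∑ s ∈ D, kap s ∈ L → ∀ A : H1, ∃ a : K → _,
      ∑ s ∈ D, P s (a s) = A := by
    intro D h1 h2 A
    exact (hG D (Finset.mem_filter.2 ⟨Finset.mem_univ _, h1, h2⟩)).1 A
  have hchar : ∀ x : F, x - x = x + x := by
    intro x; rw [CharTwo.add_self_eq_zero, sub_self]
  refine hS.lift g {x | x.1 ∈ L} N (fun x hx => hx) ?_ ?_
  · intro x hx D h1 h2 a a' h3 h4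
    have hDL : ∑ s ∈ D, kap s ∈ L := by rw [h2]; exact hx
    apply hPu D h1 hDL
    have h5 := h3.trans h4.symm
    rw [hgsum, hgsum] at h5
    have h6 := congrArg Prod.fst h5
    exact add_right_cancel h6
  · intro x hx
    have hx' : x.1 ∈ L := hx
    -- the circuit of D
    let R : Finset (Finset K) := univ.filter (fun D => D.card = r ∧ ∑ s ∈ D, kap s = x.1)
    have hR : ∀ D, D ∈ R ↔ D.card = r ∧ ∑ s ∈ D, kap s = x.1 := by
      intro D; simp [R]
    have hRL : ∀ D ∈ R, D.card = r ∧ ∑ s ∈ D, kap s ∈ L := by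
      intro D hD
      obtain ⟨h1, h2⟩ := (hR D).1 hD
      exact ⟨h1, by rw [h2]; exact hx'⟩
    have hRcard : R.card = 2 * N := by
      rw [← hS.card x.1 hx', ← Set.ncard_coe_finset]
      congr 1
      ext D
      simp only [Finset.mem_coe, hR]
      rfl
    have hcirc : ∀ D : Finset K, ∃ C : Finset K, D ∈ R → (C ∈ CC ∧ D ⊆ C ∧
        ∀ C', C' ∈ CC → D ⊆ C' → C' = C) := by
      intro D
      by_cases hD : D ∈ R
      · obtain ⟨C, ⟨h1, h2⟩, h3⟩ := hex D (hRL D hD).1 (hRL D hD).2
        exact ⟨C, fun _ => ⟨h1, h2, fun C' h4 h5 => h3 C' ⟨h4, h5⟩⟩⟩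
      · exact ⟨∅, fun h => absurd h hD⟩
    choose circ hcirc using hcirc
    let ε : Finset K → ZMod 2 := fun D =>
      τ (x.2.1.1 (circ D)) + τ (∑ s ∈ D, δ (circ D) s)
    -- partner
    have hpart : ∀ D ∈ R, circ D \ D ∈ R ∧ circ (circ D \ D) = circ D ∧
        circ D \ (circ D \ D) = D ∧ ε (circ D \ D) = ε D + 1 := by
      intro D hD
      obtain ⟨h1, h2, h3⟩ := hcirc D hD
      obtain ⟨h4, h5⟩ := (hR D).1 hD
      obtain ⟨h6, h7⟩ := hC _ h1
      have h8 : circ D \ D ∈ R := by
        rw [hR]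
        constructor
        · rw [Finset.card_sdiff_of_subset h2, h6, h4]; omega
        · have h9 := Finset.sum_sdiff (f := kap) h2
          rw [h7, h5] at h9
          have h10 := hE x.1
          exact add_right_cancel (h9.trans h10.symm)
      obtain ⟨k1, k2, k3⟩ := hcirc _ h8
      have h11 : circ (circ D \ D) = circ D := (k3 (circ D) h1 Finset.sdiff_subset).symm
      refine ⟨h8, h11, ?_, ?_⟩
      · rw [Finset.sdiff_sdiff_eq_self h2]
      · simp only [ε]
        rw [h11]
        have h12 := Finset.sum_sdiff (f := δ (circ D)) h2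
        rw [hδ _ h1] at h12
        have h13 := congrArg τ h12
        rw [map_add, hτ] at h13
        have h14 : ∀ a b c : ZMod 2, a + b = 1 → c + a = c + b + 1 := by decide
        exact h14 _ _ _ h13
    have hset : {D : Finset K | D.card = r ∧ ∑ s ∈ D, kap s = x.1 ∧
        ∃ a : K → Option (Finset K) → F, ∑ s ∈ D, g (s, a s) = x.2}
        = ((R.filter (fun D => ε D = x.2.2) : Finset (Finset K)) : Set (Finset K)) := by
      have hcomp : ∀ D ∈ R, ∀ a : K → Option (Finset K) → F,
          ∑ s ∈ D, P s (a s) + ∑ s ∈ D, ξ s = x.2.1 →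
          τ (∑ s ∈ D, a s none) = ε D := by
        intro D hD a h
        obtain ⟨h1, h2, h3⟩ := hcirc D hD
        have h4 : ∑ s ∈ D, a s none + ∑ s ∈ D, δ (circ D) s = x.2.1.1 (circ D) := by
          rw [← h, Prod.fst_add, Prod.fst_sum, Prod.fst_sum, Pi.add_apply, Finset.sum_apply,
            Finset.sum_apply]
          congr 1
          exact Finset.sum_congr rfl (fun s hs => (hsp1 s (a s) (circ D) h1 (h2 hs)).symm)
        have h6 := congrArg τ h4
        rw [map_add] at h6
        have h7 : ∀ a b c : ZMod 2, a + b = c → a = c + b := by decide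
        exact h7 _ _ _ h6
      ext D
      rw [Finset.mem_coe, Finset.mem_filter, hR]
      constructor
      · rintro ⟨h1, h2, a, h3⟩
        refine ⟨⟨h1, h2⟩, ?_⟩
        rw [hgsum] at h3
        have h4 := congrArg Prod.fst h3
        have h5 := congrArg Prod.snd h3
        rw [← hcomp D ((hR D).2 ⟨h1, h2⟩) a h4]
        exact h5
      · rintro ⟨⟨h1, h2⟩, h3⟩
        have hDR := (hR D).2 ⟨h1, h2⟩
        obtain ⟨a, ha⟩ := hPe D h1 (hRL D hDR).2 (x.2.1 - ∑ s ∈ D, ξ s)
        refine ⟨h1, h2, a, ?_⟩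
        rw [hgsum]
        have h4 : ∑ s ∈ D, P s (a s) + ∑ s ∈ D, ξ s = x.2.1 := by rw [ha, sub_add_cancel]
        apply Prod.ext
        · exact h4
        · rw [← h3]
          exact hcomp D hDR a h4
    rw [hset, Set.ncard_coe_finset]
    have hflip : (R.filter (fun D => ε D = x.2.2)).card
        = (R.filter (fun D => ¬ ε D = x.2.2)).card := by
      apply Finset.card_bij' (fun D _ => circ D \ D) (fun D _ => circ D \ D)
      · intro D hD
        rw [Finset.mem_filter] at hD ⊢
        obtain ⟨h1, h2, h3, h4⟩ := hpart D hD.1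
        refine ⟨h1, ?_⟩
        rw [h4, hD.2]
        have : ∀ z : ZMod 2, z + 1 ≠ z := by decide
        exact this _
      · intro D hD
        rw [Finset.mem_filter] at hD ⊢
        obtain ⟨h1, h2, h3, h4⟩ := hpart D hD.1
        refine ⟨h1, ?_⟩
        rw [h4]
        have : ∀ z w : ZMod 2, z ≠ w → z + 1 = w := by decide
        exact this _ _ hD.2
      · intro D hD
        rw [Finset.mem_filter] at hD
        obtain ⟨h1, h2, h3, h4⟩ := hpart D hD.1
        rw [h2, h3]
      · intro D hD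
        rw [Finset.mem_filter] at hD
        obtain ⟨h1, h2, h3, h4⟩ := hpart D hD.1
        rw [h2, h3]
    have htot := Finset.card_filter_add_card_filter_not (s := R) (fun D => ε D = x.2.2)
    omega

end Pool.Agent.Lib.MP_f8d60a_co_h11
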