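import Mathlib
import Pool.Agent.Lib.MP_f8d60a_co_h11.Gen
import Pool.Agent.Lib.MP_f8d60a_co_h11.Sys
import Pool.Agent.Lib.MP_f8d60a_co_h11.LiftTwo

/-!
Lift I: colouring the `r`-subsets of a label so that a consistent family of circuits exists.
-/

set_option autoImplicit false

namespace Pool.Agent.Lib.MP_f8d60a_co_h11

open Finset Module

variable {K E F A : Type}

/-- the special coordinates of Lift I -/
abbrev BI (K E : Type) : Type := E ⊕ (E ⊕ Finset K)

theorem sum_mul_single [DecidableEq K] [Field F] (D : Finset K) (c : K → F) (s2 : K)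
    (hs2 : s2 ∈ D) (p : F) : ∑ s ∈ D, c s * (Pi.single s2 p : K → F) s = c s2 * p := by
  rw [Finset.sum_eq_single s2]
  · rw [Pi.single_eq_same]
  · intro b _ hb
    rw [Pi.single_eq_of_ne hb, mul_zero]
  · intro h; exact absurd hs2 h

theorem sum_single [DecidableEq K] [Field F] (D : Finset K) (s2 : K)
    (hs2 : s2 ∈ D) (p : F) : ∑ s ∈ D, (Pi.single s2 p : K → F) s = p := by
  have h := sum_mul_single D (fun _ => (1 : F)) s2 hs2 p
  simpa using h

theorem liftI [Fintype K] [DecidableEq K] [AddCommGroup E] [Fintype E] [Field F]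
    [Fintype F] [CharP F 2] [Fintype A] {r N : ℕ} (hr : 1 ≤ r) {kap : K → E} {L : Set E}
    (hE : ∀ x : E, x + x = 0) (hS : Sys r kap L N) (hA : Fintype.card A ≤ N)
    (e : A → F) (he : Function.Injective e) (Z : Set F)
    (hZ : ∀ z : F, z ≠ 0 → ∀ a : A, ∃! b, b ≠ a ∧ (e a + e b) * z ∈ Z)
    (hF : 2 ^ (Fintype.card K) < Fintype.card F) :
    ∃ (g : K × (Option (BI K E) → F) → ((BI K E → F) ×
        (Fin (gdim r (Fintype.card (BI K E))) → F)))
      (CC : Set (Finset (K × (Option (BI K E) → F)))),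
      Sys r (fun x => ((kap x.1, g x) :
        E × ((BI K E → F) × (Fin (gdim r (Fintype.card (BI K E))) → F))))
        {x | x.1 ∈ L ∧ ∀ b : BI K E, x.2.1 b ≠ 0} (Fintype.card A) ∧
      (∀ C ∈ CC, C.card = 2 * r ∧ ∑ x ∈ C, ((kap x.1, g x) :
        E × ((BI K E → F) × (Fin (gdim r (Fintype.card (BI K E))) → F))) = 0) ∧
      (∀ D : Finset (K × (Option (BI K E) → F)), D.card = r →
        ∑ x ∈ D, ((kap x.1, g x) :
          E × ((BI K E → F) × (Fin (gdim r (Fintype.card (BI K E))) → F)))
          ∈ {x : E × ((BI K E → F) × (Fin (gdim r (Fintype.card (BI K E))) → F)) |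
            x.1 ∈ L ∧ ∀ b : BI K E, x.2.1 b ≠ 0} →
        ∃! C, C ∈ CC ∧ D ⊆ C) := by
  classical
  have : Inhabited F := ⟨0⟩
  -- the good sets
  have hgd : ∀ d : E, ∃ gd : A → Finset K, d ∈ L → (Function.Injective gd ∧
      ∀ α, (gd α).card = r ∧ ∑ s ∈ gd α, kap s = d) := by
    intro d
    by_cases hd : d ∈ L
    · have h1 := hS.card d hd
      let R : Finset (Finset K) := univ.filter (fun D => D.card = r ∧ ∑ s ∈ D, kap s = d)
      have h2 : R.card = N := by
        rw [← h1, ← Set.ncard_coe_finset]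
        congr 1
        ext D
        simp [R]
      have h3 : Fintype.card A ≤ Fintype.card R := by
        rw [Fintype.card_coe, h2]; exact hA
      obtain ⟨φ⟩ := Function.Embedding.nonempty_of_card_le h3
      refine ⟨fun α => (φ α : Finset K), fun _ => ⟨fun α β h => φ.injective (Subtype.ext h),
        fun α => ?_⟩⟩
      exact (Finset.mem_filter.1 (φ α).2).2
    · exact ⟨fun _ => ∅, fun h => absurd h hd⟩
  choose gd hgd using hgd
  have hgduniq : ∀ d ∈ L, ∀ s α β, s ∈ gd d α → s ∈ gd d β → α = β := by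
    intro d hd s α β h1 h2
    obtain ⟨h3, h4⟩ := hgd d hd
    by_contra hne
    have h5 := hS.disj (gd d α) (gd d β) (h4 α).1 (h4 β).1 (by rw [(h4 α).2]; exact hd)
      (by rw [(h4 α).2, (h4 β).2]) (fun h => hne (h3 h))
    exact Finset.disjoint_left.1 h5 h1 h2
  let bad : Finset K → Prop := fun D => D.card = r ∧ ∑ s ∈ D, kap s ∈ L ∧
    ∀ α, gd (∑ s ∈ D, kap s) α ≠ D
  let has : E → K → Prop := fun d s => ∃ α, d ∈ L ∧ s ∈ gd d α
  let col : E → K → F := fun d s => if h : has d s then e h.choose else 0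
  have hcol : ∀ d ∈ L, ∀ s α, s ∈ gd d α → has d s ∧ col d s = e α := by
    intro d hd s α hs
    have h : has d s := ⟨α, hd, hs⟩
    refine ⟨h, ?_⟩
    simp only [col]
    rw [dif_pos h]
    rw [hgduniq d hd s h.choose α h.choose_spec.2 hs]
  let DD : Finset (Finset K) := univ.filter (fun D => ∃ d ∈ L, ∃ α, gd d α = D)
  let sp : K → (Option (BI K E) → F) →ₗ[F] (BI K E → F) := fun s =>
    LinearMap.pi fun b => match b with
      | Sum.inl d => LinearMap.proj (some (Sum.inl d))
      | Sum.inr (Sum.inl d) => if has d s then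
          LinearMap.proj none + col d s • LinearMap.proj (some (Sum.inl d))
          else LinearMap.proj (some (Sum.inr (Sum.inl d)))
      | Sum.inr (Sum.inr D) => if bad D ∧ s ∈ D then 0
          else LinearMap.proj (some (Sum.inr (Sum.inr D)))
  have hspl : ∀ s a d, sp s a (Sum.inl d) = a (some (Sum.inl d)) := fun s a d => rfl
  have hspm : ∀ s a d, sp s a (Sum.inr (Sum.inl d)) =
      if has d s then a none + col d s * a (some (Sum.inl d))
      else a (some (Sum.inr (Sum.inl d))) := by
    intro s a d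
    simp only [sp, LinearMap.pi_apply]
    split_ifs <;> rfl
  have hspx : ∀ s a D, sp s a (Sum.inr (Sum.inr D)) =
      if bad D ∧ s ∈ D then 0 else a (some (Sum.inr (Sum.inr D))) := by
    intro s a D
    simp only [sp, LinearMap.pi_apply]
    split_ifs <;> rfl
  have hDD : ∀ D ∈ DD, D.card = r := by
    intro D hD
    obtain ⟨-, d, hd, α, rfl⟩ := Finset.mem_filter.1 hD
    exact ((hgd d hd).2 α).1
  have hsurj : ∀ D ∈ DD, ∀ y : BI K E → F, ∃ a : K → Option (BI K E) → F,
      ∑ s ∈ D, sp s (a s) = y := by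
    intro D hD y
    obtain ⟨-, d0, hd0, α0, hDα⟩ := Finset.mem_filter.1 hD
    have hDr := hDD D hD
    have hDd : ∑ s ∈ D, kap s = d0 := by rw [← hDα]; exact ((hgd d0 hd0).2 α0).2
    obtain ⟨s1, hs1⟩ : D.Nonempty := Finset.card_pos.1 (by omega)
    let n : K → F := fun s => if s = s1 then
      y (Sum.inr (Sum.inl d0)) - e α0 * y (Sum.inl d0) else 0
    -- coordinates l, m
    have huv : ∀ d : E, ∃ u v : K → F, ∑ s ∈ D, u s = y (Sum.inl d) ∧
        ∑ s ∈ D, (if has d s then n s + col d s * u s else v s) = y (Sum.inr (Sum.inl d)) := by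
      intro d
      by_cases hd : d ∈ L
      · by_cases hdd : d = d0
        · subst hdd
          refine ⟨Pi.single s1 (y (Sum.inl d)), 0, sum_single D s1 hs1 _, ?_⟩
          have h1 : ∀ s ∈ D, (if has d s then n s + col d s * (Pi.single s1 (y (Sum.inl d)) :
              K → F) s else (0 : K → F) s) = (Pi.single s1 (y (Sum.inr (Sum.inl d)) -
                e α0 * y (Sum.inl d)) : K → F) s + e α0 * (Pi.single s1 (y (Sum.inl d)) :
                K → F) s := by
            intro s hs
            rw [← hDα] at hs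
            obtain ⟨h2, h3⟩ := hcol d hd s α0 hs
            rw [if_pos h2, h3]
            simp only [n, Pi.single_apply]
          rw [Finset.sum_congr rfl h1, Finset.sum_add_distrib, sum_single D s1 hs1,
            sum_mul_single D (fun _ => e α0) s1 hs1]
          ring
        · by_cases hall : ∀ s ∈ D, has d s
          · obtain ⟨s2, hs2, t2, ht2, hne⟩ : ∃ s2 ∈ D, ∃ t2 ∈ D, col d s2 ≠ col d t2 := by
              by_contra hcon
              push Not at hcon
              obtain ⟨α, -, hα⟩ := hall s1 hs1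
              have h2 := (hcol d hd s1 α hα).2
              have hsub : D ⊆ gd d α := by
                intro s hs
                obtain ⟨β, -, hβ⟩ := hall s hs
                have h3 := (hcol d hd s β hβ).2
                have h4 : β = α := by
                  apply he
                  rw [← h3, ← h2]
                  exact hcon s hs s1 hs1
                rwa [h4] at hβ
              have heq : D = gd d α :=
                Finset.eq_of_subset_of_card_le hsub (by rw [hDr, ((hgd d hd).2 α).1])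
              apply hdd
              rw [← hDd, heq, ((hgd d hd).2 α).2]
            have hne' : col d s2 - col d t2 ≠ 0 := sub_ne_zero.2 hne
            let c : F := y (Sum.inr (Sum.inl d)) - ∑ s ∈ D, n s
            let p : F := (c - col d t2 * y (Sum.inl d)) / (col d s2 - col d t2)
            let q : F := y (Sum.inl d) - p
            refine ⟨fun s => (Pi.single s2 p : K → F) s + (Pi.single t2 q : K → F) s, 0, ?_, ?_⟩
            · rw [Finset.sum_add_distrib, sum_single D s2 hs2, sum_single D t2 ht2]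
              simp only [q]; ring
            · have h1 : ∀ s ∈ D, (if has d s then n s + col d s *
                  ((Pi.single s2 p : K → F) s + (Pi.single t2 q : K → F) s) else (0 : K → F) s)
                  = n s + (col d s * (Pi.single s2 p : K → F) s +
                    col d s * (Pi.single t2 q : K → F) s) := by
                intro s hs
                rw [if_pos (hall s hs)]; ring
              rw [Finset.sum_congr rfl h1, Finset.sum_add_distrib, Finset.sum_add_distrib,
                sum_mul_single D (col d) s2 hs2, sum_mul_single D (col d) t2 ht2]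
              have h5 : (col d s2 - col d t2) * p = c - col d t2 * y (Sum.inl d) :=
                mul_div_cancel₀ _ hne'
              have h6 : col d s2 * p + col d t2 * q = c := by
                simp only [q]
                linear_combination h5
              rw [h6]
              simp only [c]; ring
          · push Not at hall
            obtain ⟨s2, hs2, hs2n⟩ := hall
            obtain ⟨v, hv⟩ := exists_private D (has d)
              (fun s => n s + col d s * (Pi.single s2 (y (Sum.inl d)) : K → F) s)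
              (y (Sum.inr (Sum.inl d))) s2 hs2 hs2n
            exact ⟨Pi.single s2 (y (Sum.inl d)), v, sum_single D s2 hs2 _, hv⟩
      · refine ⟨Pi.single s1 (y (Sum.inl d)), Pi.single s1 (y (Sum.inr (Sum.inl d))),
          sum_single D s1 hs1 _, ?_⟩
        have h1 : ∀ s ∈ D, (if has d s then n s + col d s * (Pi.single s1 (y (Sum.inl d)) :
            K → F) s else (Pi.single s1 (y (Sum.inr (Sum.inl d))) : K → F) s)
            = (Pi.single s1 (y (Sum.inr (Sum.inl d))) : K → F) s := by
          intro s _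
          rw [if_neg]
          rintro ⟨α, h2, -⟩
          exact hd h2
        rw [Finset.sum_congr rfl h1]
        exact sum_single D s1 hs1 _
    have hwx : ∀ D2 : Finset K, ∃ w : K → F,
        ∑ s ∈ D, (if bad D2 ∧ s ∈ D2 then 0 else w s) = y (Sum.inr (Sum.inr D2)) := by
      intro D2
      obtain ⟨s2, hs2, hs2D⟩ : ∃ s2 ∈ D, ¬ (bad D2 ∧ s2 ∈ D2) := by
        by_contra hcon
        push Not at hcon
        have hb := (hcon s1 hs1).1
        have hsub : D ⊆ D2 := fun s hs => (hcon s hs).2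
        have heq : D = D2 := Finset.eq_of_subset_of_card_le hsub (by rw [hDr, hb.1])
        apply hb.2.2 α0
        rw [← heq, hDd, hDα]
      obtain ⟨w, hw⟩ := exists_private D (fun s => bad D2 ∧ s ∈ D2) (fun _ => (0 : F))
        (y (Sum.inr (Sum.inr D2))) s2 hs2 hs2D
      exact ⟨w, hw⟩
    choose u v hu hv using huv
    choose w hw using hwx
    refine ⟨fun s o => match o with
      | none => n s
      | some (Sum.inl d) => u d s
      | some (Sum.inr (Sum.inl d)) => v d s
      | some (Sum.inr (Sum.inr D2)) => w D2 s, ?_⟩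
    funext b
    rw [Finset.sum_apply]
    rcases b with d | d | D2
    · exact hu d
    · rw [← hv d]
      apply Finset.sum_congr rfl
      intro s hs
      rw [hspm]
    · rw [← hw D2]
      apply Finset.sum_congr rfl
      intro s hs
      rw [hspx]
  have hDDcard : (DD.card : ℕ∞) < ENat.card F := by
    have h1 : DD.card ≤ 2 ^ (Fintype.card K) := by
      refine (Finset.card_le_univ DD).trans ?_
      rw [Fintype.card_finset]
    rw [ENat.card_eq_coe_fintype_card]
    exact_mod_cast lt_of_le_of_lt h1 hF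
  obtain ⟨G, hG⟩ := exists_lift_maps r hr sp DD hDD hsurj hDDcard
  let H1 := (BI K E → F) × (Fin (gdim r (Fintype.card (BI K E))) → F)
  let g : K × (Option (BI K E) → F) → H1 := fun x => (sp x.1 x.2, G x.1 x.2)
  let L' : Set (E × H1) := {x | x.1 ∈ L ∧ ∀ b : BI K E, x.2.1 b ≠ 0}
  let CC : Set (Finset (K × (Option (BI K E) → F))) := {C | C.card = 2 * r ∧
    ∑ x ∈ C, ((kap x.1, g x) : E × H1) = 0 ∧ ∑ x ∈ C, x.2 none ∈ Z}
  have hL : ∀ x ∈ L', x.1 ∈ L := fun x hx => hx.1
  have hmemDD : ∀ d ∈ L, ∀ α, gd d α ∈ DD := fun d hd α =>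
    Finset.mem_filter.2 ⟨Finset.mem_univ _, d, hd, α, rfl⟩
  have hgs : ∀ (D : Finset K) (a : K → Option (BI K E) → F) (A : H1),
      ∑ s ∈ D, g (s, a s) = A → ∀ b, ∑ s ∈ D, sp s (a s) b = A.1 b := by
    intro D a A h b
    rw [← h, Prod.fst_sum, Finset.sum_apply]
  -- sets with lifts are good
  have hgood : ∀ x ∈ L', ∀ D : Finset K, D.card = r → ∑ s ∈ D, kap s = x.1 →
      ∀ a : K → Option (BI K E) → F, ∑ s ∈ D, g (s, a s) = x.2 → ∃ α, gd x.1 α = D := by
    intro x hx D h1 h2 a h3
    by_contra hcon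
    push Not at hcon
    have hb : bad D := by
      refine ⟨h1, by rw [h2]; exact hx.1, ?_⟩
      rw [h2]; exact hcon
    have h4 := hgs D a x.2 h3 (Sum.inr (Sum.inr D))
    apply hx.2 (Sum.inr (Sum.inr D))
    rw [← h4]
    apply Finset.sum_eq_zero
    intro s hs
    rw [hspx, if_pos ⟨hb, hs⟩]
  have hkey : ∀ x ∈ L', ∀ α, ∀ a : K → Option (BI K E) → F,
      ∑ s ∈ gd x.1 α, g (s, a s) = x.2 →
      ∑ s ∈ gd x.1 α, a s none = x.2.1 (Sum.inr (Sum.inl x.1)) - e α * x.2.1 (Sum.inl x.1) := by
    intro x hx α a h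
    have h1 := hgs _ a x.2 h (Sum.inr (Sum.inl x.1))
    have h2 := hgs _ a x.2 h (Sum.inl x.1)
    rw [← h1, ← h2, Finset.mul_sum, ← Finset.sum_sub_distrib]
    apply Finset.sum_congr rfl
    intro s hs
    obtain ⟨h3, h4⟩ := hcol x.1 hx.1 s α hs
    rw [hspm, hspl, if_pos h3, h4]
    ring
  have hu : ∀ x ∈ L', ∀ D : Finset K, D.card = r → ∑ s ∈ D, kap s = x.1 →
      ∀ a a' : K → Option (BI K E) → F,
      ∑ s ∈ D, g (s, a s) = x.2 → ∑ s ∈ D, g (s, a' s) = x.2 → ∀ s ∈ D, a s = a' s := by
    intro x hx D h1 h2 a a' h3 h4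
    obtain ⟨α, rfl⟩ := hgood x hx D h1 h2 a h3
    exact (hG _ (hmemDD x.1 hx.1 α)).2 a a' (h3.trans h4.symm)
  have hex1 : ∀ x ∈ L', ∀ α, ∃ a : K → Option (BI K E) → F,
      ∑ s ∈ gd x.1 α, g (s, a s) = x.2 := fun x hx α =>
    (hG _ (hmemDD x.1 hx.1 α)).1 x.2
  have huniq := hS.lift_uniq g L' hL hu
  have hSys : Sys r (fun x : K × (Option (BI K E) → F) => ((kap x.1, g x) : E × H1)) L'
      (Fintype.card A) := by
    refine hS.lift g L' _ hL hu ?_
    intro x hx
    have hset : {D : Finset K | D.card = r ∧ ∑ s ∈ D, kap s = x.1 ∧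
        ∃ a : K → Option (BI K E) → F, ∑ s ∈ D, g (s, a s) = x.2} = gd x.1 '' Set.univ := by
      ext D
      constructor
      · rintro ⟨h1, h2, a, h3⟩
        obtain ⟨α, h4⟩ := hgood x hx D h1 h2 a h3
        exact ⟨α, Set.mem_univ _, h4⟩
      · rintro ⟨α, -, rfl⟩
        exact ⟨((hgd x.1 hx.1).2 α).1, ((hgd x.1 hx.1).2 α).2, hex1 x hx α⟩
    rw [hset, Set.InjOn.ncard_image ((hgd x.1 hx.1).1.injOn), Set.ncard_univ,
      Nat.card_eq_fintype_card]
  have hE1 : ∀ z : E × H1, z + z = 0 := by
    intro z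
    have h1 : ∀ w : F, w + w = 0 := fun w => CharTwo.add_self_eq_zero w
    apply Prod.ext
    · exact hE z.1
    · apply Prod.ext
      · funext b; exact h1 _
      · funext b; exact h1 _
  -- the two descriptions of the sets over x
  have hdesc : ∀ x ∈ L', ∀ D : Finset (K × (Option (BI K E) → F)), D.card = r →
      ∑ y ∈ D, ((kap y.1, g y) : E × H1) = x → ∃ α, D.image Prod.fst = gd x.1 α ∧
        ∑ y ∈ D, y.2 none = x.2.1 (Sum.inr (Sum.inl x.1)) - e α * x.2.1 (Sum.inl x.1) := by
    intro x hx D h1 h2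
    obtain ⟨c1, s1, a1, e1, t1⟩ := hS.project g D h1 x.1 x.2 hx.1 h2
    obtain ⟨α, hα⟩ := hgood x hx _ c1 s1 a1 t1
    refine ⟨α, hα.symm, ?_⟩
    rw [← hα] at t1 e1
    rw [← hkey x hx α a1 t1]
    conv_lhs => rw [e1]
    rw [sum_graph]
  have hdesc2 : ∀ x ∈ L', ∀ α, ∃ D : Finset (K × (Option (BI K E) → F)), D.card = r ∧
      ∑ y ∈ D, ((kap y.1, g y) : E × H1) = x ∧ D.image Prod.fst = gd x.1 α := by
    intro x hx α
    obtain ⟨a, ha⟩ := hex1 x hx α
    refine ⟨(gd x.1 α).image (fun s => (s, a s)), ?_, ?_, image_fst_graph _ a⟩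
    · rw [card_graph, ((hgd x.1 hx.1).2 α).1]
    · rw [sum_graph]
      apply Prod.ext
      · rw [Prod.fst_sum]; exact ((hgd x.1 hx.1).2 α).2
      · rw [Prod.snd_sum]; exact ha
  refine ⟨g, CC, hSys, fun C hC => ⟨hC.1, hC.2.1⟩, ?_⟩
  · intro D hDr hDL
    obtain ⟨x, hx⟩ : ∃ x, ∑ y ∈ D, ((kap y.1, g y) : E × H1) = x := ⟨_, rfl⟩
    have hxL : x ∈ L' := hx ▸ hDL
    obtain ⟨α, hα, hΦ⟩ := hdesc x hxL D hDr hx
    have hz : x.2.1 (Sum.inl x.1) ≠ 0 := hxL.2 _
    obtain ⟨β, ⟨hβα, hβZ⟩, hβu⟩ := hZ _ hz α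
    obtain ⟨D2, hD2r, hD2x, hD2β⟩ := hdesc2 x hxL β
    have hne : D ≠ D2 := by
      rintro rfl
      apply hβα
      exact (hgd x.1 hxL.1).1 (hD2β.symm.trans hα)
    have hdis : Disjoint D D2 := hSys.disj D D2 hDr hD2r hDL (by rw [hD2x, hx]) hne
    obtain ⟨β', hβ', hΦ2⟩ := hdesc x hxL D2 hD2r hD2x
    have hββ : β' = β := (hgd x.1 hxL.1).1 (hβ'.symm.trans hD2β)
    subst hββ
    have hadd : ∀ α β : A, (x.2.1 (Sum.inr (Sum.inl x.1)) - e α * x.2.1 (Sum.inl x.1)) +
        (x.2.1 (Sum.inr (Sum.inl x.1)) - e β * x.2.1 (Sum.inl x.1))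
        = (e α + e β) * x.2.1 (Sum.inl x.1) := by
      intro α β
      have h1 : ∀ w : F, w + w = 0 := fun w => CharTwo.add_self_eq_zero w
      have h2 := h1 (x.2.1 (Sum.inr (Sum.inl x.1)))
      have h3 := h1 ((e α + e β) * x.2.1 (Sum.inl x.1))
      linear_combination h2 - h3
    refine ⟨D ∪ D2, ⟨⟨?_, ?_, ?_⟩, Finset.subset_union_left⟩, ?_⟩
    · rw [Finset.card_union_of_disjoint hdis, hDr, hD2r]; ring
    · rw [Finset.sum_union hdis, hx, hD2x]; exact hE1 x
    · rw [Finset.sum_union hdis, hΦ, hΦ2, hadd]; exact hβZ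
    · rintro C ⟨⟨hC1, hC2, hC3⟩, hDC⟩
      have hC4 : (C \ D).card = r := by
        rw [Finset.card_sdiff_of_subset hDC, hC1, hDr]; omega
      have hC5 : ∑ y ∈ C \ D, ((kap y.1, g y) : E × H1) = x := by
        have h1 := Finset.sum_sdiff (f := fun y => ((kap y.1, g y) : E × H1)) hDC
        rw [hC2, hx] at h1
        exact add_right_cancel (h1.trans (hE1 x).symm)
      obtain ⟨γ, hγ, hΦ3⟩ := hdesc x hxL (C \ D) hC4 hC5
      have hC6 : ∑ y ∈ C, y.2 none = (e α + e γ) * x.2.1 (Sum.inl x.1) := by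
        rw [← Finset.sum_sdiff hDC, hΦ3, hΦ, add_comm, hadd]
      have hγα : γ ≠ α := by
        rintro rfl
        have h2 : C \ D = D := huniq x hxL _ _ hC4 hDr hC5 hx (hγ.trans hα.symm)
        have h3 : Disjoint D D := by
          conv_lhs => rw [← h2]
          exact Finset.sdiff_disjoint
        rw [disjoint_self] at h3
        rw [h3] at hDr
        simp at hDr
        omega
      have hγβ : γ = β' := hβu γ ⟨hγα, by rw [← hC6]; exact hC3⟩
      subst hγβ
      have h4 : C \ D = D2 := huniq x hxL _ _ hC4 hD2r hC5 hD2x (hγ.trans hD2β.symm)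
      rw [← h4, Finset.union_sdiff_of_subset hDC]

end Pool.Agent.Lib.MP_f8d60a_co_h11
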