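import Mathlib
import Pool.Agent.Lib.MP_f8d60a_co_h11.LiftOne
import Pool.Agent.Lib.MP_f8d60a_co_h11.LiftTwo
import Pool.Agent.Lib.MP_f8d60a_co_h11.Colours
import Pool.Agent.Lib.MP_f8d60a_co.F8Ind

/-!
The two lifts in the form used by the induction.
-/

set_option autoImplicit false

namespace Pool.Agent.Lib.MP_f8d60a_co_h11

open Finset Module Pool.Agent.Lib.MP_f8d60a_co.F8

theorem card_H {F B : Type} [Fintype F] [Fintype B] (r : ℕ) (hr : 1 ≤ r) :
    Nat.card ((B → F) × (Fin (gdim r (Fintype.card B)) → F))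
      = Nat.card (Option B → F) ^ r := by
  classical
  rw [Nat.card_eq_fintype_card, Nat.card_eq_fintype_card, Fintype.card_prod, Fintype.card_fun,
    Fintype.card_fun, Fintype.card_fun, Fintype.card_fin, Fintype.card_option, ← pow_add,
    ← pow_mul]
  congr 1
  obtain ⟨k, rfl⟩ : ∃ k, r = k + 1 := ⟨r - 1, by omega⟩
  simp only [gdim, Nat.add_sub_cancel]
  ring

theorem Sys.transport {K E E' : Type} [AddCommGroup E] [AddCommGroup E'] {r N : ℕ}
    {kap : K → E} {L : Set E} (hS : Sys r kap L N) (φ : E ≃+ E') :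
    Sys r (fun s => φ (kap s)) {x | φ.symm x ∈ L} N := by
  constructor
  · intro d hd
    rw [← hS.card (φ.symm d) hd]
    congr 1
    ext D
    change (D.card = r ∧ ∑ s ∈ D, φ (kap s) = d) ↔ (D.card = r ∧ ∑ s ∈ D, kap s = φ.symm d)
    rw [← map_sum]
    constructor
    · rintro ⟨h1, h2⟩
      exact ⟨h1, by rw [← h2, φ.symm_apply_apply]⟩
    · rintro ⟨h1, h2⟩
      exact ⟨h1, by rw [h2, φ.apply_symm_apply]⟩
  · intro D D' h1 h2 h3 h4 hne
    rw [← map_sum] at h3 h4
    rw [← map_sum] at h4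
    change φ.symm (φ _) ∈ L at h3
    rw [φ.symm_apply_apply] at h3
    exact hS.disj D D' h1 h2 h3 (φ.injective h4) hne
  · intro t ht
    apply hS.inj t
    rw [← map_sum] at ht
    change φ.symm (φ _) ∈ L at ht
    rwa [φ.symm_apply_apply] at ht

theorem two_torsion {E : Type} [AddCommGroup E] [Module (ZMod 2) E] (x : E) : x + x = 0 := by
  have h1 : x + x = (2 : ZMod 2) • x := by
    rw [two_smul]
  rw [h1]
  have h2 : (2 : ZMod 2) = 0 := rfl
  rw [h2, zero_smul]

theorem liftI_holds (r : ℕ) (hr : 1 ≤ r) : LiftI r := by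
  classical
  intro K E _ _ _ _ κ L N i hS hi hN
  let _ : Fintype E := Fintype.ofFinite E
  refine ⟨Fintype.card (BI K E), fun q0 => ?_⟩
  obtain ⟨F, _, _, _, A, _, e, Z, hA, hF, he, hZ⟩ :=
    exists_colours i (max q0 (2 ^ Fintype.card K)) hi
  obtain ⟨g, CC, h1, h2, h3⟩ := liftI hr (two_torsion (E := E)) hS (by rw [hA]; exact hN) e he Z
    hZ (lt_of_le_of_lt (le_max_right _ _) hF)
  let _ : Algebra (ZMod 2) F := ZMod.algebra F 2
  let H := (BI K E → F) × (Fin (gdim r (Fintype.card (BI K E))) → F)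
  let ev : BI K E → H →+ F := fun b => (Pi.evalAddMonoidHom (fun _ : BI K E => F) b).comp
    (AddMonoidHom.fst _ _)
  let eq := (Fintype.equivFin (BI K E)).symm
  have hset : {x : E × H | x.1 ∈ L ∧ ∀ b, x.2 ∉ (ev (eq b)).ker}
      = {x : E × H | x.1 ∈ L ∧ ∀ b : BI K E, x.2.1 b ≠ 0} := by
    ext x
    constructor
    · rintro ⟨k1, k2⟩
      refine ⟨k1, fun b hb => k2 (eq.symm b) ?_⟩
      rw [AddMonoidHom.mem_ker, Equiv.apply_symm_apply]
      exact hb
    · rintro ⟨k1, k2⟩
      refine ⟨k1, fun b hb => k2 (eq b) ?_⟩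
      rw [AddMonoidHom.mem_ker] at hb
      exact hb
  refine ⟨Option (BI K E) → F, H, inferInstance, ⟨0⟩, inferInstance, inferInstance,
    inferInstance, fun s v => g (s, v), fun b => (ev (eq b)).ker, CC, (card_H r hr).trans (by rw [Nat.card_eq_fintype_card]), ?_, ?_, ?_⟩
  · intro b
    have hsurj : Function.Surjective (ev (eq b)) := by
      intro c
      exact ⟨(fun _ => c, 0), rfl⟩
    have h4 := AddSubgroup.card_mul_index (ev (eq b)).ker
    rw [AddSubgroup.index_ker, AddMonoidHom.range_eq_top.2 hsurj] at h4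
    have h5 : Nat.card (⊤ : AddSubgroup F) = Fintype.card F := by
      rw [AddSubgroup.card_top, Nat.card_eq_fintype_card]
    rw [h5] at h4
    rw [← h4]
    exact Nat.mul_le_mul_left _ ((le_max_left _ _).trans hF.le)
  · rw [hset, ← hA]
    exact h1
  · rw [hset]
    exact ⟨fun C hC => (h2 C hC).1, fun C hC => (h2 C hC).2,
      fun d hd D hD hDd => h3 D hD (by rw [hDd]; exact hd)⟩

theorem liftII_holds (r : ℕ) (hr : 1 ≤ r) : LiftII r := by
  classical
  intro K E _ _ _ _ κ L N CC hS hM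
  obtain ⟨F, _, _, _, A, _, e, Z, hA, hF, he, hZ⟩ :=
    exists_colours 1 (2 ^ Fintype.card K) (le_refl _)
  obtain ⟨p, τ, h1⟩ := liftII hr (two_torsion (E := E)) hS CC
    (fun C hC => ⟨hM.card C hC, hM.sum C hC⟩)
    (fun D hD hDL => hM.uniq _ hDL D hD rfl) hF
  let _ : Algebra (ZMod 2) F := ZMod.algebra F 2
  refine ⟨Option (Finset K) → F,
    (Finset K → F) × (Fin (gdim r (Fintype.card (Finset K))) → F),
    inferInstance, ⟨0⟩, inferInstance, inferInstance, inferInstance,
    fun s v => p (s, v), τ, (card_H r hr).trans (by rw [Nat.card_eq_fintype_card]), ?_⟩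
  exact h1.transport (AddEquiv.prodAssoc (M := E) (N := (Finset K → F) ×
    (Fin (gdim r (Fintype.card (Finset K))) → F)) (P := ZMod 2)).symm

end Pool.Agent.Lib.MP_f8d60a_co_h11
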