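import Mathlib
import Pool.Agent.Lib.MP_f8d60a_co_h11.Wrap
import Pool.Agent.Lib.MP_f8d60a_co_h47.Base

/-!
`f r = 1` for every `r`.
-/

set_option autoImplicit false

namespace Pool.Agent.Lib.MP_f8d60a_co_h11

open Finset Module Pool.Agent.Lib.MP_f8d60a_co.F8

theorem base_holds (r : ℕ) (hr : 1 ≤ r) : Base r := by
  intro k hk η hη n0
  obtain ⟨K, E, _, _, _, _, kap, L, hS, hn, hcard, Y, hY, hcov⟩ :=
    Pool.Agent.Lib.MP_f8d60a_co_h47.base r k hr hk η hη n0
  let _ : Fintype K := Fintype.ofFinite K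
  rw [Nat.card_eq_fintype_card (α := K)] at hn hY hcard
  refine ⟨K, E, inferInstance, inferInstance, inferInstance, inferInstance, kap, L, Y, hS,
    hcov, hn, ?_, hY⟩
  exact_mod_cast hcard.le

theorem all_one_holds : ∀ r, N8b55e67f.f r = 1 :=
  all_one_of base_holds liftI_holds liftII_holds

end Pool.Agent.Lib.MP_f8d60a_co_h11
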